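import Pool.Agent.NTW.StmtsD

/-!
# NTW squad, row ZPW: zoom limit of pairs of near tuples
-/

set_option autoImplicit false

open Matrix Filter Topology

namespace Pool.Agent.NTW.H33

open Pool.Agent.PFS Pool.Agent.PFJ Pool.Agent.NTS

variable {n K : ℕ} {C : Set (V n)} {Γ : Subgroup (GL (Fin n) ℝ)}

theorem xt_mem {w : Fin K → V n} (hw : IsPES C Γ w) (t : Fin K → ℝ) : xt w t ∈ C :=
  hw.1.pos (fun i => Real.exp (t i)) (fun _ => Real.exp_pos _)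

/-- limit of the points `xt` -/
theorem xt_lim {W : ℕ → Fin K → V n} {T : ℕ → Fin K → ℝ} {gg : ℕ → GL (Fin n) ℝ} {ss : ℕ → ℝ}
    {v : Fin K → V n}
    (hX : ∀ i, Tendsto (fun m => ss m • act (gg m) (Real.exp (T m i) • W m i)) atTop (𝓝 (v i)))
    (s : Fin K → ℝ) :
    Tendsto (fun m => ss m • act (gg m) (xt (W m) (fun i => T m i + s i))) atTop
      (𝓝 (xt v s)) := by
  have h1 : Tendsto (fun m => ∑ i, Real.exp (s i) •
      (ss m • act (gg m) (Real.exp (T m i) • W m i))) atTop (𝓝 (xt v s)) :=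
    tendsto_finsetSum _ fun i _ => (hX i).const_smul _
  refine h1.congr fun m => ?_
  unfold xt
  rw [CC.act_sum, Finset.smul_sum]
  refine Finset.sum_congr rfl fun i _ => ?_
  rw [CC.act_smul, CC.act_smul, smul_smul, smul_smul, smul_smul, Real.exp_add]
  congr 1
  ring

theorem xt_lo (h : PCone C) {w : Fin K → V n} (hw : ∀ i, w i ∈ closure C) {t s0 : Fin K → ℝ}
    {σ : ℝ} (hσ : ∀ i, |s0 i| ≤ σ) :
    xt w (fun i => t i + s0 i) - Real.exp (-σ) • xt w t ∈ closure C := by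
  have h1 : xt w (fun i => t i + s0 i) - Real.exp (-σ) • xt w t =
      ∑ i, (Real.exp (t i + s0 i) - Real.exp (-σ) * Real.exp (t i)) • w i := by
    unfold xt
    rw [Finset.smul_sum, ← Finset.sum_sub_distrib]
    refine Finset.sum_congr rfl fun i _ => ?_
    rw [sub_smul, smul_smul]
  rw [h1]
  refine h.cl_sum fun i _ => h.cl_smul (hw i) ?_
  rw [← Real.exp_add, sub_nonneg, Real.exp_le_exp]
  have := (abs_le.1 (hσ i)).1
  linarith

theorem xt_up (h : PCone C) {w : Fin K → V n} (hw : ∀ i, w i ∈ closure C) {t s0 : Fin K → ℝ}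
    {σ : ℝ} (hσ : ∀ i, |s0 i| ≤ σ) :
    Real.exp σ • xt w t - xt w (fun i => t i + s0 i) ∈ closure C := by
  have h1 : Real.exp σ • xt w t - xt w (fun i => t i + s0 i) =
      ∑ i, (Real.exp σ * Real.exp (t i) - Real.exp (t i + s0 i)) • w i := by
    unfold xt
    rw [Finset.smul_sum, ← Finset.sum_sub_distrib]
    refine Finset.sum_congr rfl fun i _ => ?_
    rw [sub_smul, smul_smul]
  rw [h1]
  refine h.cl_sum fun i _ => h.cl_smul (hw i) ?_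
  rw [← Real.exp_add, sub_nonneg, Real.exp_le_exp]
  have := (abs_le.1 (hσ i)).2
  linarith

/-- the half sums over the classes of an involution -/
theorem sum_half {τ : Fin K → Fin K} (hτ : ∀ i, τ (τ i) = i) (x : Fin K → V n) :
    ∑ i, (1 / 2 : ℝ) • (x i + x (τ i)) = ∑ i, x i := by
  have h1 : ∑ i, x (τ i) = ∑ i, x i :=
    Equiv.sum_comp (Function.Involutive.toPerm τ hτ) x
  rw [← Finset.smul_sum, Finset.sum_add_distrib, h1, ← two_smul ℝ, smul_smul]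
  norm_num

/-- a near point of the box, as a family in the closed cone -/
theorem near_family (dcp : DcpStmt) {c : Fin K → Fin K → ℕ} {τ : Fin K → Fin K}
    (hD : Dom C Γ K c τ) {w w' : Fin K → V n} (hw : TT C Γ c w) (hw' : TT C Γ c w')
    {t : Fin K → ℝ} {M : ℝ} (hn : NearS C M (Ws C τ w') (xt w t)) :
    ∃ x : Fin K → V n, Nr C τ M w w' t x ∧ ∀ i, x i ∈ closure C := by
  obtain ⟨q, hq, hlo, hup⟩ := hn
  obtain ⟨-, d2, -, d4, -, d6, -⟩ := dcp n C Γ K c τ hD w' hw'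
  obtain ⟨x0, hx0, hx0s⟩ := (d6 q).1 hq
  have hqC : q ∈ C := hD.toPCone.mem_of_le (xt_mem hw.pes t) hlo
  refine ⟨fun i => (1 / 2 : ℝ) • (x0 i + x0 (τ i)), ⟨fun i => ?_, ?_, ?_⟩, fun i => ?_⟩
  · refine Submodule.smul_mem _ _ (Submodule.add_mem _ (hx0 i) ?_)
    have h1 := hx0 (τ i)
    rw [d2 i] at h1
    exact h1
  · rw [sum_half hD.inv, hx0s]
    exact hlo
  · rw [sum_half hD.inv, hx0s]
    exact hup
  · exact hD.toPCone.cl_smul (d4 x0 hx0 (by rw [hx0s]; exact subset_closure hqC) i) (by norm_num)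

/-- the ratio of the labels -/
theorem ratio {A S S0 P Q b r : ℝ} (hA : 0 < A) (hS : 0 < S) (hQ : 0 < Q)
    (hPQ : P * Q = 1) (h1 : Q ≤ S0) (h2 : S0 ≤ P) (hb1 : A * S ≤ 2 * b) (hb2 : b ≤ 4 * (A * S))
    (hr1 : A * S0 ≤ 2 * r) (hr2 : r ≤ 4 * (A * S0)) :
    0 < r ∧ S * Q / 8 ≤ b / r ∧ b / r ≤ 8 * P * S := by
  have hP : 0 < P := by
    rcases lt_or_ge 0 P with h | h
    · exact h
    · nlinarith
  have hS0 : 0 < S0 := lt_of_lt_of_le hQ h1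
  have hr : 0 < r := by
    have := mul_pos hA hS0
    linarith
  refine ⟨hr, ?_, ?_⟩
  · rw [le_div_iff₀ hr]
    have e1 : r ≤ 4 * (A * P) := hr2.trans (by nlinarith [mul_le_mul_of_nonneg_left h2 hA.le])
    have e2 : S * Q / 8 * r ≤ S * Q / 8 * (4 * (A * P)) :=
      mul_le_mul_of_nonneg_left e1 (by positivity)
    have e3 : S * Q / 8 * (4 * (A * P)) = (A * S) / 2 * (P * Q) := by ring
    rw [e3, hPQ] at e2
    linarith
  · rw [div_le_iff₀ hr]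
    have e1 : A * Q ≤ 2 * r := (mul_le_mul_of_nonneg_left h1 hA.le).trans hr1
    have e2 : 4 * P * S * (A * Q) ≤ 4 * P * S * (2 * r) :=
      mul_le_mul_of_nonneg_left e1 (by positivity)
    have e3 : 4 * P * S * (A * Q) = 4 * (A * S) * (P * Q) := by ring
    rw [e3, hPQ] at e2
    linarith

theorem part_b (dcp : DcpStmt) (lbw : LbwStmt) {c : Fin K → Fin K → ℕ} {τ : Fin K → Fin K}
    (hD : Dom C Γ K c τ) {W W' Y : ℕ → Fin K → V n} {T : ℕ → Fin K → ℝ}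
    {gg : ℕ → GL (Fin n) ℝ} {ss : ℕ → ℝ} {v v' : Fin K → V n} {s0 : Fin K → ℝ} {σ : ℝ}
    (hσ0 : 0 ≤ σ) (hσ : ∀ i, |s0 i| ≤ σ) (hW : ∀ m, TT C Γ c (W m)) (hW' : ∀ m, TT C Γ c (W' m))
    (hTN : ∀ m, TN C (1 / 8) (W m) (W' m)) (hg : ∀ m, gg m ∈ Γ) (hs : ∀ m, 0 < ss m)
    (hX : ∀ i, Tendsto (fun m => ss m • act (gg m) (Real.exp (T m i) • W m i)) atTop (𝓝 (v i)))
    (hY : ∀ i, Tendsto (fun m => ss m • act (gg m) (Y m i)) atTop (𝓝 (v' i)))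
    (hYN : ∀ m, Nr C τ 2 (W m) (W' m) (fun i => T m i + s0 i) (Y m)) (hv : IsPES C Γ v)
    (hL : ∀ i, LimS (fun m => img (gg m) (Lf C τ (W' m) i)) (Lf C τ v' i))
    (s : Fin K → ℝ)
    (hn : ∀ᶠ m in atTop, NearS C 2 (Ws C τ (W' m)) (xt (W m) (fun i => T m i + s i))) :
    ∃ x : Fin K → V n, Nr C τ (8 * Real.exp σ) v v' s x ∧ Lbl τ (8 * Real.exp σ) v' s x := by
  have h : CC C Γ := hD.toCC
  have hc : PCone C := hD.toPCone
  obtain ⟨N, hN⟩ := eventually_atTop.1 hn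
  have hx0 : ∀ m, ∃ x : Fin K → V n,
      Nr C τ 2 (W (m + N)) (W' (m + N)) (fun i => T (m + N) i + s i) x ∧
        ∀ i, x i ∈ closure C := fun m =>
    near_family dcp hD (hW _) (hW' _) (hN (m + N) (Nat.le_add_left _ _))
  choose x hxN hxC using hx0
  -- boundedness
  have hlim : Tendsto (fun m => ss (m + N) • act (gg (m + N))
      (xt (W (m + N)) (fun i => T (m + N) i + s i))) atTop (𝓝 (xt v s)) :=
    (xt_lim hX s).comp (tendsto_add_atTop_nat N)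
  obtain ⟨B, hB, hnorm⟩ := hc.normal
  obtain ⟨R, hR⟩ : ∃ R : ℝ, ∀ m, ‖ss (m + N) • act (gg (m + N))
      (xt (W (m + N)) (fun i => T (m + N) i + s i))‖ ≤ R := by
    obtain ⟨R, hR⟩ := hlim.norm.bddAbove_range
    exact ⟨R, fun m => hR ⟨m, rfl⟩⟩
  have hR0 : 0 ≤ R := (norm_nonneg _).trans (hR 0)
  have hlo : ∀ m, (∑ i, ss (m + N) • act (gg (m + N)) (x m i)) - ss (m + N) • act (gg (m + N))
      (xt (W (m + N)) (fun i => T (m + N) i + s i)) ∈ closure C := by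
    intro m
    rw [← Finset.smul_sum, ← CC.act_sum, ← smul_sub, ← CC.act_sub]
    exact (h.sact_cl_iff (hg _) (hs _)).mpr (hxN m).lo
  have hup : ∀ m, (2 : ℝ) • (ss (m + N) • act (gg (m + N))
      (xt (W (m + N)) (fun i => T (m + N) i + s i))) -
      (∑ i, ss (m + N) • act (gg (m + N)) (x m i)) ∈ closure C := by
    intro m
    rw [← Finset.smul_sum, ← CC.act_sum, smul_comm, ← smul_sub, ← CC.act_smul, ← CC.act_sub]
    exact (h.sact_cl_iff (hg _) (hs _)).mpr (hxN m).up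
  have hxG : ∀ m i, ss (m + N) • act (gg (m + N)) (x m i) ∈ closure C := fun m i =>
    (h.sact_cl_iff (hg _) (hs _)).mpr (hxC m i)
  have hbd : ∀ m, (fun i => ss (m + N) • act (gg (m + N)) (x m i)) ∈
      Metric.closedBall (0 : Fin K → V n) (B * (2 * R)) := by
    intro m
    rw [Metric.mem_closedBall, dist_zero_right, pi_norm_le_iff_of_nonneg (by positivity)]
    intro i
    have h1 : (2 : ℝ) • (ss (m + N) • act (gg (m + N))
        (xt (W (m + N)) (fun i => T (m + N) i + s i))) -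
        ss (m + N) • act (gg (m + N)) (x m i) ∈ closure C := by
      refine hc.le_trans (y := ∑ i, ss (m + N) • act (gg (m + N)) (x m i)) ?_ (hup m)
      rw [← Finset.add_sum_erase _ _ (Finset.mem_univ i), add_sub_cancel_left]
      exact hc.cl_sum fun j _ => hxG m j
    refine (hnorm _ _ (hxG m i) h1).trans (mul_le_mul_of_nonneg_left ?_ hB.le)
    rw [norm_smul, Real.norm_eq_abs, abs_of_pos (by norm_num : (0 : ℝ) < 2)]
    exact mul_le_mul_of_nonneg_left (hR m) (by norm_num)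
  obtain ⟨z, -, φ, hφ, hz⟩ :=
    (isCompact_closedBall (0 : Fin K → V n) (B * (2 * R))).tendsto_subseq hbd
  have hzi : ∀ i, Tendsto (fun m => ss (φ m + N) • act (gg (φ m + N)) (x (φ m) i)) atTop
      (𝓝 (z i)) := fun i => (tendsto_pi_nhds.1 hz) i
  have hlim2 : Tendsto (fun m => ss (φ m + N) • act (gg (φ m + N))
      (xt (W (φ m + N)) (fun i => T (φ m + N) i + s i))) atTop (𝓝 (xt v s)) :=
    hlim.comp hφ.tendsto_atTop
  have hzs : Tendsto (fun m => ∑ i, ss (φ m + N) • act (gg (φ m + N)) (x (φ m) i)) atTop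
      (𝓝 (∑ i, z i)) := tendsto_finsetSum _ fun i _ => hzi i
  have hP1 : 1 ≤ Real.exp σ := Real.one_le_exp hσ0
  have hPQ : Real.exp σ * Real.exp (-σ) = 1 := by
    rw [← Real.exp_add, add_neg_cancel, Real.exp_zero]
  refine ⟨z, ⟨fun i => ?_, ?_, ?_⟩, fun i hi => ?_⟩
  · refine (hL i).2 (fun m => φ m + N) (fun m => ss (φ m + N) • act (gg (φ m + N)) (x (φ m) i))
      (z i) (fun a b hab => Nat.add_lt_add_right (hφ hab) N) (fun m => ?_) (hzi i)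
    exact Submodule.smul_mem _ _ (mem_img.2 ⟨_, (hxN (φ m)).mem i, rfl⟩)
  · exact isClosed_closure.mem_of_tendsto (hzs.sub hlim2) (Eventually.of_forall fun m => hlo (φ m))
  · have h1 : (2 : ℝ) • xt v s - ∑ i, z i ∈ closure C :=
      isClosed_closure.mem_of_tendsto ((hlim2.const_smul (2 : ℝ)).sub hzs)
        (Eventually.of_forall fun m => hup (φ m))
    refine hc.le_trans h1 ?_
    rw [← sub_smul]
    exact hc.cl_smul (subset_closure (xt_mem hv s)) (by linarith)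
  · -- labels
    have hβ : ∀ m, ∃ β : ℝ, β ∈ Set.Icc (Real.exp (s i) * Real.exp (-σ) / 8)
        (8 * Real.exp σ * Real.exp (s i)) ∧ x m i = β • Y (m + N) i := by
      intro m
      obtain ⟨b, hb1, hb2, hb3⟩ := (lbw n C Γ K c τ hD (W (m + N)) (W' (m + N)) (hW _) (hW' _)
        (hTN _) (fun i => T (m + N) i + s i) 2 (x m) (hxN m)).1 i hi
      obtain ⟨r, hr1, hr2, hr3⟩ := (lbw n C Γ K c τ hD (W (m + N)) (W' (m + N)) (hW _) (hW' _)
        (hTN _) (fun i => T (m + N) i + s0 i) 2 (Y (m + N)) (hYN _)).1 i hi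
      simp only [Real.exp_add] at hb2 hb3 hr2 hr3
      obtain ⟨hr, h1, h2⟩ := ratio (Real.exp_pos (T (m + N) i)) (Real.exp_pos (s i))
        (Real.exp_pos (-σ)) hPQ (Real.exp_le_exp.2 (abs_le.1 (hσ i)).1)
        (Real.exp_le_exp.2 (abs_le.1 (hσ i)).2) hb2 (by linarith) hr2 (by linarith)
      refine ⟨b / r, ⟨h1, h2⟩, ?_⟩
      rw [hb1, hr1, smul_smul, div_mul_cancel₀ _ hr.ne']
    choose β hβI hβx using hβ
    obtain ⟨β0, hβ0, ψ, hψ, hβl⟩ := isCompact_Icc.tendsto_subseq (fun m => hβI (φ m))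
    have hY2 : Tendsto (fun m => ss (φ (ψ m) + N) • act (gg (φ (ψ m) + N)) (Y (φ (ψ m) + N) i))
        atTop (𝓝 (v' i)) :=
      (hY i).comp ((tendsto_add_atTop_nat N).comp (hφ.tendsto_atTop.comp hψ.tendsto_atTop))
    have h1 : Tendsto (fun m => ss (φ (ψ m) + N) • act (gg (φ (ψ m) + N)) (x (φ (ψ m)) i)) atTop
        (𝓝 (β0 • v' i)) := by
      refine (hβl.smul hY2).congr fun m => ?_
      show β (φ (ψ m)) • _ = _
      rw [hβx (φ (ψ m)), CC.act_smul, smul_comm]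
    have h2 : Tendsto (fun m => ss (φ (ψ m) + N) • act (gg (φ (ψ m) + N)) (x (φ (ψ m)) i)) atTop
        (𝓝 (z i)) := (hzi i).comp hψ.tendsto_atTop
    refine ⟨β0, tendsto_nhds_unique h2 h1, ?_, hβ0.2⟩
    have e1 := mul_le_mul_of_nonneg_left hβ0.1 (by positivity : (0 : ℝ) ≤ 8 * Real.exp σ)
    have e2 : 8 * Real.exp σ * (Real.exp (s i) * Real.exp (-σ) / 8) =
        Real.exp (s i) * (Real.exp σ * Real.exp (-σ)) := by ring
    rw [e2, hPQ, mul_one] at e1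
    exact e1

theorem zpw (pac : PacStmt) (tbx : TbxStmt) (dcp : DcpStmt) (ptp : PtpStmt)
    (wlm : WlmStmt) (lbw : LbwStmt) : ZpwStmt := by
  intro n C Γ K c τ hD w w' t s0 hw hw' hTN hnear hnot
  have h : CC C Γ := hD.toCC
  have hc : PCone C := hD.toPCone
  obtain ⟨ns1, -, -, -, ns5⟩ := Pool.Agent.PFJ.H39.nsf n C Γ h
  have h2K : 2 ≤ Fintype.card (Fin K) := by
    rw [Fintype.card_fin]
    have := hD.three
    omega
  obtain ⟨σ, hσ0, hσ⟩ : ∃ σ : ℝ, 0 ≤ σ ∧ ∀ i, |s0 i| ≤ σ :=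
    ⟨∑ i, |s0 i|, Finset.sum_nonneg fun i _ => abs_nonneg _, fun i =>
      Finset.single_le_sum (f := fun i => |s0 i|) (fun j _ => abs_nonneg _) (Finset.mem_univ i)⟩
  -- adapted simplices through the near points
  choose q₀ hq₀mem hq₀lo hq₀up using hnear
  have hq₀C : ∀ m, q₀ m ∈ C := fun m => hc.mem_of_le (xt_mem (hw m).pes _) (hq₀lo m)
  have hex := fun m => ptp n C Γ K c τ hD (w' m) (hw' m) (q₀ m) (hq₀mem m) (hq₀C m)
  choose Y hYT hYL hYs using hex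
  have hYmem : ∀ m i, Y m i ∈ Lf C τ (w' m) i := fun m i => by
    rw [← hYL m i]
    exact (dcp n C Γ K c τ hD (Y m) (hYT m)).1 i
  have hYws : ∀ m, Ws C τ (Y m) = Ws C τ (w' m) := fun m => by
    unfold Ws
    simp only [hYL m]
  -- first zoom
  obtain ⟨φ1, g, s, p, hφ1, hg, hs, hp, hlim⟩ :=
    Pool.Agent.PFS.H60.zom n C Γ h (fun m => xt (w m) (t m))
      (fun m => xt_mem (hw m).pes _)
      (fun m => (Pool.Agent.PFS.H60.elm n C Γ h (Fin K) (w m) (hw m).pes).2.2.2.1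
        (fun i => Real.exp (t m i)) (fun _ => Real.exp_pos _))
  have hXT : ∀ m, TT C Γ c (fun i => s m • act (g m) (Real.exp (t (φ1 m) i) • w (φ1 m) i)) :=
    fun m => (tbx n C Γ K c τ hD _ ((tbx n C Γ K c τ hD _ (hw (φ1 m))).2.1
      (fun i => Real.exp (t (φ1 m) i)) (fun _ => Real.exp_pos _))).2.2.1 (g m) (hg m) (s m) (hs m)
  have hXs : ∀ m, ∑ i, s m • act (g m) (Real.exp (t (φ1 m) i) • w (φ1 m) i) =
      s m • act (g m) (xt (w (φ1 m)) (t (φ1 m))) := fun m => by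
    unfold xt
    rw [← Finset.smul_sum, ← CC.act_sum]
  obtain ⟨φ2, v, hφ2, hv, hvs, hvP⟩ := Pool.Agent.PFS.H37.lpsF n C Γ h (Fin K) h2K
    (fun m i => s m • act (g m) (Real.exp (t (φ1 m) i) • w (φ1 m) i)) p
    (fun m => (hXT m).pes) hp (by simp only [hXs]; exact hlim)
  have hvT : TT C Γ c v := (wlm n C Γ K c τ hD
    (fun m i => s (φ2 m) • act (g (φ2 m)) (Real.exp (t (φ1 (φ2 m)) i) • w (φ1 (φ2 m)) i)) v
    (fun m => hXT (φ2 m)) hv hvP).1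
  -- bounds for the near points
  have hcl : ∀ m i, w m i ∈ closure C := fun m i => (hw m).pes.1.cl i
  have hbl : ∀ m, q₀ m - Real.exp (-σ) • xt (w m) (t m) ∈ closure C := fun m =>
    hc.le_trans (xt_lo hc (hcl m) hσ) (hq₀lo m)
  have hbu : ∀ m, (2 : ℝ) • (Real.exp σ • xt (w m) (t m)) - q₀ m ∈ closure C := by
    intro m
    refine hc.le_trans (hq₀up m) ?_
    rw [← smul_sub]
    exact hc.cl_smul (xt_up hc (hcl m) hσ) (by norm_num)
  have hP2 : Tendsto (fun m => s (φ2 m) • act (g (φ2 m)) (xt (w (φ1 (φ2 m))) (t (φ1 (φ2 m)))))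
      atTop (𝓝 p) := hlim.comp hφ2.tendsto_atTop
  obtain ⟨B, hB, hnorm⟩ := hc.normal
  obtain ⟨R, hR⟩ : ∃ R : ℝ, ∀ m, ‖s (φ2 m) • act (g (φ2 m))
      (xt (w (φ1 (φ2 m))) (t (φ1 (φ2 m))))‖ ≤ R := by
    obtain ⟨R, hR⟩ := hP2.norm.bddAbove_range
    exact ⟨R, fun m => hR ⟨m, rfl⟩⟩
  have hbound : ∀ m, s (φ2 m) • act (g (φ2 m)) (q₀ (φ1 (φ2 m)))
      ∈ Metric.closedBall (0 : V n) (B * (2 * (Real.exp σ * R))) := by
    intro m
    rw [Metric.mem_closedBall, dist_zero_right]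
    have h1 : s (φ2 m) • act (g (φ2 m)) (q₀ (φ1 (φ2 m))) ∈ closure C :=
      (h.sact_cl_iff (hg _) (hs _)).mpr (subset_closure (hq₀C _))
    have h2 : (2 : ℝ) • (Real.exp σ • (s (φ2 m) • act (g (φ2 m))
        (xt (w (φ1 (φ2 m))) (t (φ1 (φ2 m)))))) - s (φ2 m) • act (g (φ2 m)) (q₀ (φ1 (φ2 m)))
        ∈ closure C := by
      have h3 := (h.sact_cl_iff (hg (φ2 m)) (hs (φ2 m))).mpr (hbu (φ1 (φ2 m)))
      rw [CC.act_sub, smul_sub, CC.act_smul, CC.act_smul] at h3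
      rw [smul_comm (Real.exp σ) (s (φ2 m)), smul_comm (2 : ℝ) (s (φ2 m))]
      exact h3
    refine (hnorm _ _ h1 h2).trans (mul_le_mul_of_nonneg_left ?_ hB.le)
    rw [norm_smul, norm_smul, Real.norm_eq_abs, Real.norm_eq_abs, Real.abs_exp,
      abs_of_pos (by norm_num : (0 : ℝ) < 2)]
    exact mul_le_mul_of_nonneg_left (mul_le_mul_of_nonneg_left (hR m) (Real.exp_pos _).le)
      (by norm_num)
  obtain ⟨q, -, φ3, hφ3, hq⟩ :=
    (isCompact_closedBall (0 : V n) (B * (2 * (Real.exp σ * R)))).tendsto_subseq hbound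
  have hP3 : Tendsto (fun m => s (φ2 (φ3 m)) • act (g (φ2 (φ3 m)))
      (xt (w (φ1 (φ2 (φ3 m)))) (t (φ1 (φ2 (φ3 m)))))) atTop (𝓝 p) :=
    hP2.comp hφ3.tendsto_atTop
  have hqC : q ∈ C := by
    refine hc.mem_of_le (hc.smul p hp (Real.exp (-σ)) (Real.exp_pos _)) ?_
    refine isClosed_closure.mem_of_tendsto (hq.sub (hP3.const_smul (Real.exp (-σ))))
      (Eventually.of_forall fun m => ?_)
    have h3 := (h.sact_cl_iff (hg (φ2 (φ3 m))) (hs (φ2 (φ3 m)))).mpr (hbl (φ1 (φ2 (φ3 m))))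
    rw [CC.act_sub, smul_sub, CC.act_smul, smul_comm] at h3
    exact h3
  -- second simplices
  have hYT3 : ∀ m, TT C Γ c (fun i => s (φ2 (φ3 m)) • act (g (φ2 (φ3 m)))
      (Y (φ1 (φ2 (φ3 m))) i)) := fun m =>
    (tbx n C Γ K c τ hD _ (hYT (φ1 (φ2 (φ3 m))))).2.2.1 _ (hg _) _ (hs _)
  have hYs3 : ∀ m, ∑ i, s (φ2 (φ3 m)) • act (g (φ2 (φ3 m))) (Y (φ1 (φ2 (φ3 m))) i) =
      s (φ2 (φ3 m)) • act (g (φ2 (φ3 m))) (q₀ (φ1 (φ2 (φ3 m)))) := fun m => by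
    rw [← Finset.smul_sum, ← CC.act_sum, hYs]
  obtain ⟨φ4, v', hφ4, hv', hvs', hvP'⟩ := Pool.Agent.PFS.H37.lpsF n C Γ h (Fin K) h2K
    (fun m i => s (φ2 (φ3 m)) • act (g (φ2 (φ3 m))) (Y (φ1 (φ2 (φ3 m))) i)) q
    (fun m => (hYT3 m).pes) hqC (by simp only [hYs3]; exact hq)
  obtain ⟨hvT', φ5, hφ5, hLf, hLw⟩ := wlm n C Γ K c τ hD
    (fun m i => s (φ2 (φ3 (φ4 m))) • act (g (φ2 (φ3 (φ4 m)))) (Y (φ1 (φ2 (φ3 (φ4 m)))) i)) v'
    (fun m => hYT3 (φ4 m)) hv' hvP'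
  have hLf' : ∀ i, LimS (fun m => img (g (φ2 (φ3 (φ4 (φ5 m)))))
      (Lf C τ (w' (φ1 (φ2 (φ3 (φ4 (φ5 m)))))) i)) (Lf C τ v' i) := by
    intro i
    have h1 := hLf i
    have h2 : (fun m => Lf C τ (fun i => s (φ2 (φ3 (φ4 (φ5 m)))) •
        act (g (φ2 (φ3 (φ4 (φ5 m))))) (Y (φ1 (φ2 (φ3 (φ4 (φ5 m))))) i)) i) =
        fun m => img (g (φ2 (φ3 (φ4 (φ5 m)))))
          (Lf C τ (w' (φ1 (φ2 (φ3 (φ4 (φ5 m)))))) i) := by
      funext m
      rw [((pac n C Γ h (g (φ2 (φ3 (φ4 (φ5 m))))) (hg _) (s (φ2 (φ3 (φ4 (φ5 m))))) (hs _)).2.2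
        K τ (Y (φ1 (φ2 (φ3 (φ4 (φ5 m))))))).1 i, hYL]
    rw [← h2]
    exact h1
  have hLw' : LimS (fun m => img (g (φ2 (φ3 (φ4 (φ5 m)))))
      (Ws C τ (w' (φ1 (φ2 (φ3 (φ4 (φ5 m)))))))) (Ws C τ v') := by
    have h2 : (fun m => Ws C τ (fun i => s (φ2 (φ3 (φ4 (φ5 m)))) •
        act (g (φ2 (φ3 (φ4 (φ5 m))))) (Y (φ1 (φ2 (φ3 (φ4 (φ5 m))))) i))) =
        fun m => img (g (φ2 (φ3 (φ4 (φ5 m)))))
          (Ws C τ (w' (φ1 (φ2 (φ3 (φ4 (φ5 m))))))) := by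
      funext m
      rw [((pac n C Γ h (g (φ2 (φ3 (φ4 (φ5 m))))) (hg _) (s (φ2 (φ3 (φ4 (φ5 m))))) (hs _)).2.2
        K τ (Y (φ1 (φ2 (φ3 (φ4 (φ5 m))))))).2, hYws]
    rw [← h2]
    exact hLw
  have h345 : Tendsto (fun m => φ3 (φ4 (φ5 m))) atTop atTop :=
    hφ3.tendsto_atTop.comp (hφ4.tendsto_atTop.comp hφ5.tendsto_atTop)
  have hX : ∀ i, Tendsto (fun m => s (φ2 (φ3 (φ4 (φ5 m)))) • act (g (φ2 (φ3 (φ4 (φ5 m)))))
      (Real.exp (t (φ1 (φ2 (φ3 (φ4 (φ5 m))))) i) • w (φ1 (φ2 (φ3 (φ4 (φ5 m))))) i)) atTop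
      (𝓝 (v i)) := fun i => (hv i).comp h345
  have hY5 : ∀ i, Tendsto (fun m => s (φ2 (φ3 (φ4 (φ5 m)))) • act (g (φ2 (φ3 (φ4 (φ5 m)))))
      (Y (φ1 (φ2 (φ3 (φ4 (φ5 m))))) i)) atTop (𝓝 (v' i)) := fun i =>
    (hv' i).comp hφ5.tendsto_atTop
  have hP5 : Tendsto (fun m => s (φ2 (φ3 (φ4 (φ5 m)))) • act (g (φ2 (φ3 (φ4 (φ5 m)))))
      (xt (w (φ1 (φ2 (φ3 (φ4 (φ5 m)))))) (t (φ1 (φ2 (φ3 (φ4 (φ5 m)))))))) atTop (𝓝 p) :=
    hP2.comp h345
  refine ⟨fun m => φ1 (φ2 (φ3 (φ4 (φ5 m)))), v, v', 8 * Real.exp σ,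
    hφ1.comp (hφ2.comp (hφ3.comp (hφ4.comp hφ5))), hvT, hvT', ?_, ?_⟩
  · intro heq
    have hpW : p ∈ Ws C τ v' := by
      rw [← heq, ← hvs]
      exact Submodule.sum_mem _ fun i _ =>
        le_iSup (Lf C τ v) i ((dcp n C Γ K c τ hD v hvT).1 i)
    have hev := ns5 2 _ (Ws C τ v') _ p hLw' hp hpW hP5 (by norm_num)
    obtain ⟨m, hm⟩ := hev.exists
    exact hnot _ ((ns1 2 _ _ (g (φ2 (φ3 (φ4 (φ5 m))))) (hg _) _ (hs _)).mp hm)
  · intro s' hfr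
    exact part_b dcp lbw hD (W := fun m => w (φ1 (φ2 (φ3 (φ4 (φ5 m))))))
      (W' := fun m => w' (φ1 (φ2 (φ3 (φ4 (φ5 m))))))
      (Y := fun m => Y (φ1 (φ2 (φ3 (φ4 (φ5 m))))))
      (T := fun m => t (φ1 (φ2 (φ3 (φ4 (φ5 m))))))
      (gg := fun m => g (φ2 (φ3 (φ4 (φ5 m)))))
      (ss := fun m => s (φ2 (φ3 (φ4 (φ5 m))))) (s0 := s0) hσ0 hσ
      (fun m => hw _) (fun m => hw' _) (fun m => hTN _) (fun m => hg _) (fun m => hs _) hX hY5
      (fun m => ⟨fun i => hYmem _ i, by rw [hYs]; exact hq₀lo _, by rw [hYs]; exact hq₀up _⟩)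
      hvP hLf' s' hfr

end Pool.Agent.NTW.H33
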